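import Pool.Agent.Helper91.MC9.Spec

/-!
# MP_9d78a0_co, part EMB: subgraphs
-/

set_option autoImplicit false

namespace Pool.Agent.Helper74.MC9.EMB

open SimpleGraph Pool.Agent.Helper91.MC9

theorem main : S_EMB := by
  intro W V V' H G G' φ hφ hadj ⟨B, hB, hdisj, hE⟩
  refine ⟨fun w => φ '' B w, ?_, ?_, ?_⟩
  · intro w
    let f : G.induce (B w) →g G'.induce (φ '' B w) :=
      ⟨fun x => ⟨φ x.1, ⟨x.1, x.2, rfl⟩⟩, by
        intro x y h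
        exact hadj _ _ h⟩
    refine Connected.map f ?_ (hB w)
    rintro ⟨_, ⟨x, hx, rfl⟩⟩
    exact ⟨⟨x, hx⟩, rfl⟩
  · intro a b hab
    exact (Set.disjoint_image_iff hφ).2 (hdisj hab)
  · intro a b hab
    obtain ⟨x, hx, y, hy, hxy⟩ := hE a b hab
    exact ⟨φ x, ⟨x, hx, rfl⟩, φ y, ⟨y, hy, rfl⟩, hadj _ _ hxy⟩

end Pool.Agent.Helper74.MC9.EMB
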