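import Pool.Agent.Helper91.MC9.Spec

/-!
# MP_9d78a0_co, part LIM: the analysis lemma for the minimum
-/

set_option autoImplicit false

namespace Pool.Agent.Helper74.MC9.LIM

open Filter Topology Pool.Agent.Helper91.MC9

theorem main : S_LIM := by
  intro f C K K' hC hK' hK
  set g : ℕ → ℝ := fun n => (f n : ℝ) / n with hg
  have hg0 : ∀ n, 0 ≤ g n := fun n => by positivity
  have hgC : ∀ n, g n ≤ C := by
    intro n
    rcases Nat.eq_zero_or_pos n with h | h
    · simp [hg, h]
    · have hn : (0 : ℝ) < n := by exact_mod_cast h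
      rw [hg]
      simp only
      rw [div_le_iff₀ hn]
      exact_mod_cast hC n
  have hbelow : IsBoundedUnder (· ≥ ·) atTop g := isBoundedUnder_of ⟨0, hg0⟩
  have habove : IsBoundedUnder (· ≤ ·) atTop g := isBoundedUnder_of ⟨C, hgC⟩
  have hstep : ∀ n r, f (n + r) ≤ f n + K' * r := by
    intro n r
    induction r with
    | zero => simp
    | succ r ih =>
      have := hK' (n + r)
      rw [← add_assoc, mul_add]
      omega
  refine ⟨liminf g atTop, ?_⟩
  set L := liminf g atTop with hL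
  have hup : ∀ ε : ℝ, 0 < ε → ∀ᶠ n in atTop, g n < L + 4 * ε := by
    intro ε hε
    obtain ⟨s, hs⟩ := exists_nat_gt ((K : ℝ) / ε)
    have hs0 : (0 : ℝ) < s := lt_of_le_of_lt (by positivity) hs
    have hKs : (K : ℝ) ≤ ε * s := by
      rw [div_lt_iff₀ hε] at hs
      linarith
    obtain ⟨N, hN⟩ := hK s
    have hfr : ∃ᶠ n in atTop, g n < L + ε :=
      frequently_lt_of_liminf_lt (habove.isCoboundedUnder_ge) (by rw [← hL]; linarith)
    obtain ⟨M, hM⟩ := exists_nat_gt ((K * N : ℝ) / ε)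
    obtain ⟨n1, hn1, hgn1⟩ := (hfr.and_eventually (eventually_ge_atTop (M + 1))).exists
    obtain ⟨hn1L, hn1M⟩ : g n1 < L + ε ∧ M + 1 ≤ n1 := ⟨hn1, hgn1⟩
    have hn10 : 0 < n1 := by omega
    have hn1r : (0 : ℝ) < n1 := by exact_mod_cast hn10
    have hKN : (K * N : ℝ) ≤ ε * n1 := by
      rw [div_lt_iff₀ hε] at hM
      have : (M : ℝ) ≤ n1 := by exact_mod_cast (by omega : M ≤ n1)
      nlinarith
    have hLε : 0 ≤ L + ε := le_trans (hg0 n1) hn1L.le
    have hf1 : (f n1 : ℝ) ≤ (L + ε) * n1 := by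
      have := hn1L.le
      rw [hg] at this
      simp only at this
      rwa [div_le_iff₀ hn1r] at this
    have hmul : ∀ m : ℕ, (f (m * n1) : ℝ) ≤ (L + 3 * ε) * (m * n1) := by
      intro m
      have h := hN n1 m
      have h' : (s : ℝ) * f (m * n1) ≤ s * (m * f n1) + K * m * (n1 + s * N) := by
        exact_mod_cast h
      have hm0 : (0 : ℝ) ≤ m := by positivity
      have e1 : (s : ℝ) * (m * f n1) ≤ s * (m * ((L + ε) * n1)) :=
        mul_le_mul_of_nonneg_left (mul_le_mul_of_nonneg_left hf1 hm0) hs0.le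
      have e2 : (K : ℝ) * m * n1 ≤ (ε * s) * m * n1 :=
        mul_le_mul_of_nonneg_right (mul_le_mul_of_nonneg_right hKs hm0) hn1r.le
      have e3 : (K : ℝ) * N * (m * s) ≤ (ε * n1) * (m * s) :=
        mul_le_mul_of_nonneg_right hKN (by positivity)
      have e4 : (s : ℝ) * f (m * n1) ≤ s * ((L + 3 * ε) * (m * n1)) := by
        nlinarith
      exact le_of_mul_le_mul_left e4 hs0
    obtain ⟨Q, hQ⟩ := exists_nat_gt ((K' * n1 : ℝ) / ε)
    filter_upwards [eventually_ge_atTop (Q + 1)] with n hn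
    have hn0 : 0 < n := by omega
    have hnr : (0 : ℝ) < n := by exact_mod_cast hn0
    have hQn : (K' * n1 : ℝ) < ε * n := by
      rw [div_lt_iff₀ hε] at hQ
      have : (Q : ℝ) ≤ n := by exact_mod_cast (by omega : Q ≤ n)
      nlinarith
    have hdm : (n / n1) * n1 + n % n1 = n := by
      rw [mul_comm]; exact Nat.div_add_mod n n1
    have hr : n % n1 < n1 := Nat.mod_lt _ hn10
    have h1 := hstep ((n / n1) * n1) (n % n1)
    rw [hdm] at h1
    have h1' : (f n : ℝ) ≤ f ((n / n1) * n1) + K' * (n % n1 : ℕ) := by exact_mod_cast h1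
    have h2 := hmul (n / n1)
    have h3 : ((n / n1 : ℕ) : ℝ) * n1 ≤ n := by
      exact_mod_cast Nat.div_mul_le_self n n1
    have h4 : (K' : ℝ) * (n % n1 : ℕ) ≤ K' * n1 := by
      have : ((n % n1 : ℕ) : ℝ) ≤ n1 := by exact_mod_cast hr.le
      exact mul_le_mul_of_nonneg_left this (by positivity)
    have h5 : (L + 3 * ε) * (((n / n1 : ℕ) : ℝ) * n1) ≤ (L + 3 * ε) * n :=
      mul_le_mul_of_nonneg_left h3 (by linarith)
    rw [hg]
    simp only
    rw [div_lt_iff₀ hnr]
    nlinarith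
  rw [Metric.tendsto_atTop']
  intro ε hε
  have hu := hup (ε / 4) (by linarith)
  have hl : ∀ᶠ n in atTop, L - ε < g n :=
    eventually_lt_of_lt_liminf (by rw [← hL]; linarith) hbelow
  obtain ⟨n0, hn0⟩ := eventually_atTop.1 (hu.and hl)
  refine ⟨n0, fun n hn => ?_⟩
  obtain ⟨a, b⟩ := hn0 n hn.le
  rw [Real.dist_eq, abs_lt]
  constructor
  · linarith
  · linarith

end Pool.Agent.Helper74.MC9.LIM
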